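import Mathlib
import Pool.Agent.Lib.helper31.PExt

namespace Pool.Agent.Results.MP_4d6431_an.TraceLimit

open Set Filter Topology Pool.Agent.Lib.helper31.PExt

/-- `ae_p(n)`: the supremum of `ae_p(N)` over nonempty metric spaces with at most `n` points. -/
noncomputable def aeN (p : ℝ) (n : ℕ) : ENNReal :=
  ⨆ (N : Type) (_ : MetricSpace N) (_ : Nonempty N) (_ : ENat.card N ≤ n), ae p N

/-- `S(n, m)`. -/
noncomputable def S (n m : ℕ) : ENNReal :=
  ⨆ (N : Type) (M : Type) (_ : MetricSpace N) (_ : MetricSpace M) (_ : Nonempty N) (j : N → M)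
    (_ : Isometry j) (_ : ENat.card N ≤ n) (_ : (range j)ᶜ.encard ≤ m), lim0 fun p => trace p j

/-- Q1 and Q2 both have a positive answer. -/
theorem result : (∀ n : ℕ, 3 ≤ n → Tendsto (fun p => aeN p n) (𝓝[>] 0) (𝓝 ⊤)) ∧
    ∀ n m : ℕ, 3 ≤ n → S n m = m + 1 := by
  have hc : ∀ n : ℕ, 3 ≤ n → ENat.card N3 ≤ n := fun n hn =>
    N3_card.trans (by exact_mod_cast hn)
  refine ⟨fun n hn => tendsto_nhds_top_mono' ae_tendsto fun p => ?_, fun n m hn => ?_⟩
  · exact le_iSup_of_le N3 (le_iSup_of_le inferInstance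
      (le_iSup₂_of_le inferInstance (hc n hn) le_rfl))
  · refine le_antisymm ?_ ?_
    · simp only [S, iSup_le_iff]
      intro N M _ _ _ j hj hN hm
      have : Finite N := by
        rw [← ENat.card_lt_top]
        exact hN.trans_lt (ENat.natCast_lt_top n)
      exact le_of_tendsto' (tendsto_lim0 fun p q hq hqp => trace_anti j hq hqp)
        fun p => trace_le hj hm p
    · have h1 : lim0 (fun p => trace p (inc m)) ≤ S n m :=
        le_iSup₂_of_le N3 (M3 m) (le_iSup₂_of_le inferInstance inferInstance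
          (le_iSup₂_of_le inferInstance (inc m) (le_iSup₂_of_le (inc_iso m) (hc n hn)
            (le_iSup_of_le (inc_compl m) le_rfl))))
      refine le_trans ?_ h1
      refine le_of_forall_lt_imp_le_of_dense fun c hc => ?_
      have hct : c ≠ ⊤ := hc.ne_top
      rw [← ENNReal.ofReal_toReal hct]
      refine ge_of_tendsto (tendsto_lim0 fun p q hq hqp => trace_anti (inc m) hq hqp)
        (lower m ?_)
      have e : ((m : ENNReal) + 1) = ENNReal.ofReal (m + 1) := by
        rw [ENNReal.ofReal_add (by positivity) zero_le_one]; simp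
      rwa [e, ← ENNReal.ofReal_toReal hct,
        ENNReal.ofReal_lt_ofReal_iff_of_nonneg ENNReal.toReal_nonneg] at hc

end Pool.Agent.Results.MP_4d6431_an.TraceLimit
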